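import Mathlib
import Pool.Agent.H33.Sol.Quot

set_option autoImplicit false

/-!
# A non-simple group whose soluble graph has diameter at least four

The group constructed in the proof is `PGU_5(4)`, that is `U_5(4).5`, realised as the group
`U5` of all unitary `5 × 5` matrices over the field with 16 elements modulo the subgroup
`⟨ω^205⟩` of its five scalar matrices.

Outline of the proof.  Let `ω` be a unitary matrix of order `1025`, `x = ω^25` (of order `41`) and
`φ` the unitary matrix of order `5` with `φ ω φ⁻¹ = ω^16`.

* An element of order `41` of a soluble subgroup `K` of `GL_5(16)` generates a normal subgroup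
  of `K` (`sol41`), because it acts irreducibly on the natural module and because of the orders
  of the Sylow subgroups of `GL_5(16)`.
* The normaliser of `⟨x⟩` in the unitary group is `⟨ω, φ⟩` (`norm_unitary`), so the neighbours of
  the image of `x` lie in a group of order `1025`, whose elements of order `5` generate `206`
  subgroups.
* For a suitable conjugate `y = g x g⁻¹` (with `g` a permutation matrix), each of the `206 ^ 2`
  pairs of elements of order `5` in the two normalisers generates an insoluble group.  For each
  pair this is certified by a short word of order divisible by `41` and an element not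
  normalising the corresponding subgroup; the certificates are checked by kernel computation.
-/

namespace Pool.Agent.Results.MP_259931_al.DiameterFour

open Pool.Agent.H33.Sol

/-- The soluble radical `R(G)`: the join of all soluble normal subgroups of `G`. -/
def solubleRadical (G : Type) [Group G] : Subgroup G :=
  sSup {N : Subgroup G | N.Normal ∧ Group.IsSolvable N}

/-- The soluble graph of `G`: its vertices are the elements outside `R(G)`, and two distinct
vertices are adjacent exactly when they generate a soluble subgroup. -/
def solubleGraph (G : Type) [Group G] : SimpleGraph {x : G // x ∉ solubleRadical G} where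
  Adj x y := x ≠ y ∧ Group.IsSolvable (Subgroup.closure {x.1, y.1} : Subgroup G)
  symm := ⟨fun x y h => ⟨h.1.symm, by rw [Set.pair_comm]; exact h.2⟩⟩
  loopless := ⟨fun _ h => h.1 rfl⟩

lemma solv_self {G : Type} [Group G] (a : G) :
    Group.IsSolvable (Subgroup.closure {a, a} : Subgroup G) :=
  solv_closure_comm (Commute.refl a)

/-- an element of a soluble normal subgroup generates a soluble group with any element -/
lemma solv_of_normal {G : Type} [Group G] {N : Subgroup G} (hN : N.Normal)
    (hs : Group.IsSolvable N) {n : G} (hn : n ∈ N) (a : G) :
    Group.IsSolvable (Subgroup.closure {a, n} : Subgroup G) := by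
  set K : Subgroup G := Subgroup.closure {a, n} with hK
  have h1 : Group.IsSolvable (K.map (QuotientGroup.mk' N)) := by
    rw [hK, MonoidHom.map_closure, Set.image_pair]
    apply solv_closure_comm
    have h2 : QuotientGroup.mk' N n = 1 := (QuotientGroup.eq_one_iff n).2 hn
    rw [h2]
    exact Commute.one_right _
  have h2 : Group.IsSolvable (N.subgroupOf K) :=
    Group.isSolvable_of_isSolvable_injective
      (f := (K.subtype.subgroupComap N)) (by
        intro x y hxy
        apply Subtype.ext
        apply Subtype.ext
        have h3 := congrArg (fun z : N => z.1) hxy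
        exact h3)
  apply Group.isSolvable_of_ker_le_range (N.subgroupOf K).subtype
    ((QuotientGroup.mk' N).subgroupMap K)
  intro x hx
  rw [MonoidHom.mem_ker] at hx
  have hx' : QuotientGroup.mk' N x.1 = 1 := congrArg Subtype.val hx
  have hx2 : x.1 ∈ N := (QuotientGroup.eq_one_iff x.1).1 hx'
  exact ⟨⟨x, hx2⟩, rfl⟩

lemma radical_eq_bot {G : Type} [Group G] {W F g : G} (h : Data W F g) :
    solubleRadical G = ⊥ := by
  apply le_antisymm _ bot_le
  apply sSup_le
  rintro N ⟨hN, hs⟩
  intro n hn
  rw [Subgroup.mem_bot]
  by_contra hne
  refine no_path h hne hne (solv_of_normal hN hs hn _) (solv_self n) ?_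
  rw [Set.pair_comm]
  exact solv_of_normal hN hs hn _

lemma not_solvable {G : Type} [Group G] {W F g : G} (h : Data W F g) : ¬ Group.IsSolvable G := by
  intro hs
  exact h.nsol _ W41_spec _ W41_spec inferInstance

lemma walk_aux {G : Type} [Group G] {a b : {x : G // x ∉ solubleRadical G}}
    (p : (solubleGraph G).Walk a b) (hp : p.length < 4) :
    ∃ z w : {x : G // x ∉ solubleRadical G},
      Group.IsSolvable (Subgroup.closure {a.1, z.1} : Subgroup G) ∧
      Group.IsSolvable (Subgroup.closure {z.1, w.1} : Subgroup G) ∧
      Group.IsSolvable (Subgroup.closure {w.1, b.1} : Subgroup G) := by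
  cases p with
  | nil => exact ⟨a, a, solv_self _, solv_self _, solv_self _⟩
  | cons h1 p1 =>
    cases p1 with
    | nil => exact ⟨a, a, solv_self _, solv_self _, h1.2⟩
    | cons h2 p2 =>
      cases p2 with
      | nil => exact ⟨_, _, h1.2, solv_self _, h2.2⟩
      | cons h3 p3 =>
        cases p3 with
        | nil => exact ⟨_, _, h1.2, h2.2, h3.2⟩
        | cons h4 p4 =>
          exfalso
          simp only [SimpleGraph.Walk.length_cons] at hp
          omega

lemma ediam_ge {G : Type} [Group G] {W F g : G} (h : Data W F g) (hW : W ^ 25 ≠ 1) :
    4 ≤ (solubleGraph G).ediam := by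
  have hR := radical_eq_bot h
  have hv : ∀ v : {x : G // x ∉ solubleRadical G}, v.1 ≠ 1 := by
    intro v hv
    apply v.2
    rw [hv]
    exact Subgroup.one_mem _
  have hy1 : g * W ^ 25 * g⁻¹ ≠ 1 := by
    intro h1
    apply hW
    have h2 : W ^ 25 = g⁻¹ * (g * W ^ 25 * g⁻¹) * g := by group
    rw [h2, h1]; group
  let x : {x : G // x ∉ solubleRadical G} := ⟨W ^ 25, by rw [hR, Subgroup.mem_bot]; exact hW⟩
  let y : {x : G // x ∉ solubleRadical G} :=
    ⟨g * W ^ 25 * g⁻¹, by rw [hR, Subgroup.mem_bot]; exact hy1⟩
  refine le_trans ?_ (SimpleGraph.edist_le_ediam (u := x) (v := y))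
  refine le_iInf fun p => ?_
  have key : 4 ≤ p.length := by
    by_contra hlt
    push Not at hlt
    obtain ⟨z, w, h1, h2, h3⟩ := walk_aux p hlt
    exact no_path h (hv z) (hv w) h1 h2 h3
  exact_mod_cast key

/-- There is a finite insoluble group with trivial soluble radical which is not simple and whose
soluble graph has diameter at least four. -/
theorem result : ∃ (G : Type) (_ : Group G), Finite G ∧ ¬ Group.IsSolvable G ∧
    solubleRadical G = ⊥ ∧ ¬ IsSimpleGroup G ∧ 4 ≤ (solubleGraph G).ediam :=
  ⟨PU, inferInstance, inferInstance, not_solvable data_PU, radical_eq_bot data_PU, not_simple,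
    ediam_ge data_PU x_ne_one⟩

end Pool.Agent.Results.MP_259931_al.DiameterFour
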